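import Pool.Agent.H63.VC12.Tc12

/-! # The transfer matrix formula -/

namespace Pool.Agent.H63.VC12

open Pool.Agent.H63.VC7 Pool.Agent.H63.VC8 Pool.Agent.H63.VC11 Pool.Agent.H63.VC4

theorem Chain12_vecMul_zpow {N : ℕ} (M : Matrix (Fin (N + 1)) (Fin (N + 1)) ℂ)
    (hM : IsUnit M.det) (t : ℂ) (ht : t ≠ 0) (v : Fin (N + 1) → ℂ)
    (h : Matrix.vecMul v M = t • v) (a : ℤ) : Matrix.vecMul v (M ^ a) = t ^ a • v := by
  have hp : ∀ p : ℕ, Matrix.vecMul v (M ^ p) = t ^ p • v := by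
    intro p
    induction p with
    | zero => rw [pow_zero, pow_zero, Matrix.vecMul_one, one_smul]
    | succ p ih =>
      rw [pow_succ, ← Matrix.vecMul_vecMul, ih, Matrix.smul_vecMul, h, smul_smul, ← pow_succ]
  rcases Int.eq_nat_or_neg a with ⟨p, rfl | rfl⟩
  · rw [zpow_natCast, zpow_natCast]
    exact hp p
  · have hu : IsUnit (M ^ p).det := by
      rw [Matrix.det_pow]
      exact hM.pow p
    rw [Matrix.zpow_neg_natCast, zpow_neg, zpow_natCast]
    have h1 : Matrix.vecMul (Matrix.vecMul v (M ^ p)) (M ^ p)⁻¹ = v := by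
      rw [Matrix.vecMul_vecMul, Matrix.mul_nonsing_inv _ hu, Matrix.vecMul_one]
    rw [hp p, Matrix.smul_vecMul] at h1
    have h2 : t ^ p ≠ 0 := pow_ne_zero _ ht
    calc Matrix.vecMul v (M ^ p)⁻¹ = (t ^ p)⁻¹ • (t ^ p • Matrix.vecMul v (M ^ p)⁻¹) := by
          rw [smul_smul, inv_mul_cancel₀ h2, one_smul]
      _ = (t ^ p)⁻¹ • v := by rw [h1]

theorem Chain12_zpow {N : ℕ} (M : Matrix (Fin (N + 1)) (Fin (N + 1)) ℂ)
    (hM : IsUnit M.det) (t : ℂ) (ht : t ≠ 0) (v : Fin (N + 1) → ℂ)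
    (h : ∀ k, t * v k = ∑ j, M j k * v j) (a : ℤ) (c : Fin (N + 1) → ℂ) :
    t ^ a * ∑ k, c k * v k = ∑ j, (M ^ a).mulVec c j * v j := by
  have h1 : Matrix.vecMul v M = t • v := by
    funext k
    rw [Pi.smul_apply, smul_eq_mul, h k]
    simp only [Matrix.vecMul, dotProduct]
    exact Finset.sum_congr rfl fun j _ => mul_comm _ _
  have h2 := Chain12_vecMul_zpow M hM t ht v h1 a
  have h3 : ∑ j, (M ^ a).mulVec c j * v j = v ⬝ᵥ (M ^ a).mulVec c := by
    simp only [dotProduct]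
    exact Finset.sum_congr rfl fun j _ => mul_comm _ _
  have h4 : ∑ k, c k * v k = v ⬝ᵥ c := by
    simp only [dotProduct]
    exact Finset.sum_congr rfl fun j _ => mul_comm _ _
  rw [h3, Matrix.dotProduct_mulVec, h2, h4, smul_dotProduct, smul_eq_mul]

theorem Chain12_detB (q : ℂ) (n N : ℕ) (hq : q ≠ 0) : IsUnit (Bmat N (q ^ n) q).det :=
  isUnit_det_of_low _ (Bmat_low N _ _) fun k => Bmat_diag N _ _ (pow_ne_zero _ hq) hq k

theorem Chain12_detC (q : ℂ) (n N : ℕ) (hq : q ≠ 0) : IsUnit (Cmat N (q ^ n) q).det := by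
  rw [← Matrix.det_transpose]
  refine isUnit_det_of_low _ ?_ fun k => ?_
  · intro k j hkj
    rw [Matrix.transpose_apply]
    unfold Cmat
    rw [Bmat_low N _ _ k j hkj, mul_zero]
  · rw [Matrix.transpose_apply]
    unfold Cmat
    rw [Finset.Ico_self, Finset.prod_empty, one_mul]
    exact Bmat_diag N _ _ (pow_ne_zero _ hq) hq k

theorem Chain12_tt (q : ℂ) (n X : ℕ) (hq : q ≠ 0) : tt q n X ≠ 0 := zpow_ne_zero _ hq

theorem tw_bb_zpow (q : ℂ) (n N : ℕ) (hg : Gen q n N) (hn : 2 ≤ n) (a : ℤ)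
    (c : Fin (N + 1) → ℂ) (X : ℕ) (hX : X ≤ N) :
    tt q n X ^ a * ∑ k : Fin (N + 1), c k * bb q n k X =
      ∑ j : Fin (N + 1), (Bmat N (q ^ n) q ^ a).mulVec c j * bb q n j X := by
  exact Chain12_zpow _ (Chain12_detB q n N hg.1) _ (Chain12_tt q n X hg.1)
    (fun k : Fin (N + 1) => bb q n k X) (fun k => tw_bb q n N hg (by omega) k X hX) a c

theorem tw_cc_zpow (q : ℂ) (n N : ℕ) (hg : Gen q n N) (hn : 2 ≤ n) (a : ℤ)
    (c : Fin (N + 1) → ℂ) (X : ℕ) (hX : X ≤ N) :
    tt q n X ^ a * ∑ k : Fin (N + 1), c k * cc q n N k X =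
      ∑ j : Fin (N + 1), (Cmat N (q ^ n) q ^ a).mulVec c j * cc q n N j X := by
  exact Chain12_zpow _ (Chain12_detC q n N hg.1) _ (Chain12_tt q n X hg.1)
    (fun k : Fin (N + 1) => cc q n N k X) (fun k => tw_cc q n N hg hn k X hX) a c

theorem hf_even (q : ℂ) (n N : ℕ) (hg : Gen q n N) (hn : 2 ≤ n) (l : List ℤ)
    (hl : Even l.length) (X : ℕ) (hX : X ≤ N) :
    hf q n N l X = ∑ k : Fin (N + 1), chainMat N (q ^ n) q l k 0 * bb q n k X := by
  induction l using List.twoStepInduction generalizing X with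
  | nil =>
    show (1 : ℂ) = ∑ k : Fin (N + 1), (1 : Matrix (Fin (N + 1)) (Fin (N + 1)) ℂ) k 0 * bb q n k X
    rw [Finset.sum_eq_single 0]
    · rw [Matrix.one_apply_eq, one_mul]
      exact (bb_zero_left q n X).symm
    · intro k _ hk
      rw [Matrix.one_apply_ne hk, zero_mul]
    · intro h
      exact absurd (Finset.mem_univ _) h
  | singleton a => simp at hl
  | cons_cons a b l ih _ =>
    have hl' : Even l.length := by
      rw [List.length_cons, List.length_cons] at hl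
      rw [Nat.even_iff] at hl ⊢
      omega
    have ih' := fun X hX => ih hl' X hX
    set v : Fin (N + 1) → ℂ := fun k => chainMat N (q ^ n) q l k 0 with hv
    set w : Fin (N + 1) → ℂ := (Bmat N (q ^ n) q ^ b).mulVec v with hw
    set u : Fin (N + 1) → ℂ := (Cmat N (q ^ n) q ^ a).mulVec w with hu
    have e1 : ∀ Y, hf q n N (b :: l) Y = ∑ k : Fin (N + 1), w k * cc q n N k Y := by
      intro Y
      have h1 : hf q n N (b :: l) Y =
          Ph q n N (fun Z => ∑ k ∈ (Finset.univ : Finset (Fin (N + 1))), w k * bb q n k Z) Y := by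
        show Ph q n N (fun Z => tt q n Z ^ b * hf q n N l Z) Y = _
        refine Ph_congr q n N hg hn _ _ ?_ Y
        intro Z hZ
        rw [ih' Z hZ]
        exact tw_bb_zpow q n N hg hn b v Z hZ
      rw [h1]
      exact Ph_sum q n N hg hn Finset.univ w (fun k : Fin (N + 1) => bb q n k) Y
    have e2 : hf q n N (a :: b :: l) X =
        Ph q n N (fun Z => ∑ k ∈ (Finset.univ : Finset (Fin (N + 1))), u k * cc q n N k Z) X := by
      show Ph q n N (fun Z => tt q n Z ^ a * hf q n N (b :: l) Z) X = _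
      refine Ph_congr q n N hg hn _ _ ?_ X
      intro Z hZ
      rw [e1 Z]
      exact tw_cc_zpow q n N hg hn a w Z hZ
    have e3 := Ph_sum q n N hg hn Finset.univ u (fun k : Fin (N + 1) => cc q n N k) X
    rw [e2, e3]
    refine Finset.sum_congr rfl fun k _ => ?_
    have e4 : Ph q n N (cc q n N k) X = bb q n k X := Ph_Ph q n N hg hn (bb q n k) X hX
    have e5 : chainMat N (q ^ n) q (a :: b :: l) k 0 = u k := by
      show (Cmat N (q ^ n) q ^ a * Bmat N (q ^ n) q ^ b * chainMat N (q ^ n) q l) k 0 = u k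
      rw [hu, hw, Matrix.mulVec_mulVec]
      rfl
    rw [e4, e5]

theorem hf_suChain (q : ℂ) (n N : ℕ) (hg : Gen q n N) (hn : 2 ≤ n) (l : List ℤ)
    (hl : Even l.length) : hf q n N l 0 = suChain l n N q := by
  rw [hf_even q n N hg hn l hl 0 (Nat.zero_le N), Finset.sum_eq_single 0]
  · have h1 : bb q n ((0 : Fin (N + 1)) : ℕ) 0 = 1 := bb_zero_left q n 0
    rw [h1, mul_one]
    rfl
  · intro k _ hk
    have h1 : (k : ℕ) ≠ 0 := fun h => hk (Fin.ext h)
    rw [bb_zero_right, if_neg h1, mul_zero]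
  · intro h
    exact absurd (Finset.mem_univ _) h

end Pool.Agent.H63.VC12
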