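import Pool.Agent.H63.VC11.Bra11
import Pool.Agent.H63.VC12.Chain12

/-! # The diagrams of two-bridge knots -/

namespace Pool.Agent.H63.VC12

open Pool.Agent.H63.VC7 Pool.Agent.H63.VC8 Pool.Agent.H63.VC11 Pool.Agent.H63.VC4

private theorem path12_Ph_smul (q : ℂ) (n N : ℕ) (hg : Gen q n N) (hn : 2 ≤ n) (c : ℂ)
    (f : ℕ → ℂ) (X : ℕ) : Ph q n N (fun Y => c * f Y) X = c * Ph q n N f X := by
  have h := Ph_sum q n N hg hn (Finset.univ : Finset Unit) (fun _ => c) (fun _ => f) X
  simpa using h

private theorem path12_tws (q : ℂ) (hq : q ≠ 0) (n N X : ℕ) (r : ℤ) :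
    tws q n N r X = q ^ (-2 * ((N : ℤ) * ((N : ℤ) + n - 1)) * r) * tt q n X ^ r := by
  unfold tws tt
  rw [← zpow_mul, ← zpow_add₀ hq]
  congr 1
  ring

/-- The eigenvalues of the tangle of a part of a chain. -/
theorem fv_path (q : ℂ) (n N m : ℕ) (hg : Gen q n N) (hn : 2 ≤ n) (r : Fin (m + 1) → ℤ) (k : ℕ)
    (v : Fin (m + 1)) (hk : m < (v : ℕ) + k) (X : ℕ) :
    fv q n N Fin.castSucc r k v X =
      q ^ (-2 * ((N : ℤ) * ((N : ℤ) + n - 1)) * ∑ i ∈ Finset.Ici v, r i) *
        (tt q n X ^ r v * hf q n N (((List.finRange (m + 1)).drop ((v : ℕ) + 1)).map r) X) := by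
  have hq : q ≠ 0 := hg.1
  induction k generalizing v X with
  | zero =>
    exfalso
    have := v.isLt
    omega
  | succ k ih =>
    rw [fv]
    rcases Fin.eq_castSucc_or_eq_last v with ⟨j, rfl⟩ | rfl
    · have hf1 : Finset.univ.filter (fun i : Fin m => i.castSucc = j.castSucc) = {j} := by
        ext i
        simp
      rw [hf1, Finset.prod_singleton]
      have hih : ∀ Y, fv q n N Fin.castSucc r k j.succ Y =
          q ^ (-2 * ((N : ℤ) * ((N : ℤ) + n - 1)) * ∑ i ∈ Finset.Ici j.succ, r i) *
            (tt q n Y ^ r j.succ *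
              hf q n N (((List.finRange (m + 1)).drop ((j.succ : ℕ) + 1)).map r) Y) := by
        intro Y
        apply ih
        rw [Fin.val_succ]
        simp only [Fin.val_castSucc] at hk
        omega
      have hfun : fv q n N Fin.castSucc r k j.succ = fun Y =>
          q ^ (-2 * ((N : ℤ) * ((N : ℤ) + n - 1)) * ∑ i ∈ Finset.Ici j.succ, r i) *
            (tt q n Y ^ r j.succ *
              hf q n N (((List.finRange (m + 1)).drop ((j.succ : ℕ) + 1)).map r) Y) :=
        funext hih
      rw [hfun, path12_Ph_smul q n N hg hn]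
      have hdrop : (List.finRange (m + 1)).drop ((j.castSucc : ℕ) + 1) =
          j.succ :: (List.finRange (m + 1)).drop ((j.succ : ℕ) + 1) := by
        have hlen : (j.castSucc : ℕ) + 1 < (List.finRange (m + 1)).length := by
          rw [List.length_finRange, Fin.val_castSucc]
          have := j.isLt
          omega
        rw [List.drop_eq_getElem_cons hlen]
        congr 1
        rw [List.getElem_finRange]
        apply Fin.ext
        simp
      have hsum : ∑ i ∈ Finset.Ici j.castSucc, r i = r j.castSucc + ∑ i ∈ Finset.Ici j.succ, r i := by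
        have hI : Finset.Ici j.castSucc = insert j.castSucc (Finset.Ici j.succ) := by
          ext i
          simp only [Finset.mem_Ici, Finset.mem_insert, Fin.le_def, Fin.ext_iff, Fin.val_castSucc,
            Fin.val_succ]
          omega
        rw [hI, Finset.sum_insert]
        simp only [Finset.mem_Ici, Fin.le_def, Fin.val_castSucc, Fin.val_succ]
        omega
      rw [hdrop, List.map_cons, hsum, path12_tws q hq, mul_add, zpow_add₀ hq]
      show _ = _ * (_ * Ph q n N (fun Y => tt q n Y ^ r j.succ *
        hf q n N (((List.finRange (m + 1)).drop ((j.succ : ℕ) + 1)).map r) Y) X)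
      ring
    · have hf1 : Finset.univ.filter (fun i : Fin m => i.castSucc = Fin.last m) = ∅ := by
        rw [Finset.filter_eq_empty_iff]
        intro i _
        exact Fin.castSucc_ne_last i
      have hdrop : (List.finRange (m + 1)).drop ((Fin.last m : ℕ) + 1) = [] := by
        apply List.drop_eq_nil_of_le
        rw [List.length_finRange, Fin.val_last]
      have hI : Finset.Ici (Fin.last m) = {Fin.last m} := by
        ext i
        simp only [Finset.mem_Ici, Finset.mem_singleton]
        exact Fin.last_le_iff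
      rw [hf1, Finset.prod_empty, mul_one, hdrop, List.map_nil, hI, Finset.sum_singleton,
        path12_tws q hq]
      show _ = _ * (_ * 1)
      rw [mul_one]

/-- The colored `SU(n)` invariants of two-bridge links by the transfer matrix formula. -/
theorem coloredSU_path (q : ℂ) (n N m : ℕ) (hm : Even (m + 1)) (hg : Gen q n N) (hn : 2 ≤ n)
    (r : Fin (m + 1) → ℤ) :
    coloredSU (diagram Fin.castSucc r) n N q = suChain ((List.finRange (m + 1)).map r) n N q := by
  have hq : q ≠ 0 := hg.1
  have hd := dimS_ne q n N hg hn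
  have hlist : r 0 :: ((List.finRange (m + 1)).drop 1).map r = (List.finRange (m + 1)).map r := by
    rw [List.finRange_succ]
    simp
  have h1 : bracket q n N (diagram Fin.castSucc r) =
      q ^ (-2 * ((N : ℤ) * ((N : ℤ) + n - 1)) * ∑ i, r i) * (dimS n N q *
        hf q n N ((List.finRange (m + 1)).map r) 0) := by
    rw [bracket_eq_fv q N hg hn Fin.castSucc r]
    have h2 : ∀ X ∈ Finset.range (N + 1), dimA n q X * fv q n N Fin.castSucc r (m + 1) 0 X =
        q ^ (-2 * ((N : ℤ) * ((N : ℤ) + n - 1)) * ∑ i, r i) * (dimA n q X *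
          (tt q n X ^ r 0 * hf q n N (((List.finRange (m + 1)).drop 1).map r) X)) := by
      intro X _
      rw [fv_path q n N m hg hn r (m + 1) 0 (by simp) X]
      have hI : Finset.Ici (0 : Fin (m + 1)) = Finset.univ := by
        ext i
        simp
      rw [hI, Fin.val_zero, zero_add]
      ring
    rw [Finset.sum_congr rfl h2, ← Finset.mul_sum, ← Ph_zero q n N hg hn
      (fun X => tt q n X ^ r 0 * hf q n N (((List.finRange (m + 1)).drop 1).map r) X)]
    congr 2
    rw [← hlist]
    rfl
  unfold coloredSU
  rw [h1, writhe_diagram Fin.castSucc (fun j => le_refl _) r,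
    hf_suChain q n N hg hn _ (by rw [List.length_map, List.length_finRange]; exact hm)]
  have h3 : q ^ (-((N : ℤ) * ((N : ℤ) + n - 1) * (-2 * ∑ i, r i))) *
      q ^ (-2 * ((N : ℤ) * ((N : ℤ) + n - 1)) * ∑ i, r i) = 1 := by
    rw [← zpow_add₀ hq]
    have : -((N : ℤ) * ((N : ℤ) + n - 1) * (-2 * ∑ i, r i)) +
        -2 * ((N : ℤ) * ((N : ℤ) + n - 1)) * ∑ i, r i = 0 := by ring
    rw [this, zpow_zero]
  rw [div_eq_iff hd]
  linear_combination (dimS n N q * suChain ((List.finRange (m + 1)).map r) n N q) * h3

end Pool.Agent.H63.VC12
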