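import Pool.Agent.H63.VC11.Ker11
import Pool.Agent.H63.VC4.Defs

/-! # Bases of the space of functions of the color -/

namespace Pool.Agent.H63.VC12

open Pool.Agent.H63.VC7 Pool.Agent.H63.VC8 Pool.Agent.H63.VC11 Pool.Agent.H63.VC4

/-- The eigenvalues of a full twist, up to a factor. -/
noncomputable def tt (q : ℂ) (n X : ℕ) : ℂ := q ^ (2 * ((X : ℤ) * ((X : ℤ) + n - 1)))

/-- The normalization of the basis functions. -/
noncomputable def bet (q : ℂ) (n k : ℕ) : ℂ :=
  q ^ ((n : ℤ) * k + (k.choose 2 : ℕ)) * br q 1 ^ k / qf q k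

/-- The basis functions for `Bmat`. -/
noncomputable def bb (q : ℂ) (n k X : ℕ) : ℂ := bet q n k * om q n k X

/-- The basis functions for `Cmat`. -/
noncomputable def cc (q : ℂ) (n N k X : ℕ) : ℂ := Ph q n N (bb q n k) X

/-- The norms of the basis functions. -/
noncomputable def Pk (q : ℂ) (n N k : ℕ) : ℂ := ∏ i ∈ Finset.range k, facC N (q ^ n) q i

/-- The function of a chain. -/
noncomputable def hf (q : ℂ) (n N : ℕ) : List ℤ → ℕ → ℂ
  | [], _ => 1
  | a :: l, X => Ph q n N (fun Y => tt q n Y ^ a * hf q n N l Y) X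

theorem om_zero_right (q : ℂ) (n t : ℕ) (ht : 1 ≤ t) : om q n t 0 = 0 := by
  unfold om
  apply Finset.prod_eq_zero (Finset.mem_range.2 ht)
  simp [qn_zero]

theorem om_lt (q : ℂ) (n t X : ℕ) (h : X < t) : om q n t X = 0 := by
  unfold om
  apply Finset.prod_eq_zero (Finset.mem_range.2 h)
  rw [sub_self, qn_zero, mul_zero]

theorem bb_zero_left (q : ℂ) (n X : ℕ) : bb q n 0 X = 1 := by
  simp [bb, bet, om, qf_zero]

theorem bb_zero_right (q : ℂ) (n k : ℕ) : bb q n k 0 = if k = 0 then 1 else 0 := by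
  split_ifs with h
  · subst h; exact bb_zero_left q n 0
  · unfold bb; rw [om_zero_right q n k (by omega), mul_zero]

theorem bb_lt (q : ℂ) (n k X : ℕ) (h : X < k) : bb q n k X = 0 := by
  unfold bb; rw [om_lt q n k X h, mul_zero]

end Pool.Agent.H63.VC12
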