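import Pool.Agent.H63.VC4.Bpow

/-! # Continuity of the transfer matrix formula -/

namespace Pool.Agent.H63.VC12

open Pool.Agent.H63.VC Pool.Agent.H63.VC4 Filter Topology

private theorem Cont12_qbin {q : ℂ → ℂ} {x : ℂ} (hq : ContinuousAt q x) (k : ℕ) :
    ∀ j : ℕ, ContinuousAt (fun y => qbin (q y) k j) x := by
  induction k with
  | zero =>
    intro j
    rcases j with _ | j
    · simp only [qbin]
      exact continuousAt_const
    · simp only [qbin]
      exact continuousAt_const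
  | succ k ih =>
    intro j
    rcases j with _ | j
    · simp only [qbin]
      exact continuousAt_const
    · simp only [qbin]
      exact (ih j).add ((hq.pow _).mul (ih (j + 1)))

private theorem Cont12_cb {f : ℂ → ℂ} {x : ℂ} (hf : ContinuousAt f x) (h : f x ≠ 0) :
    ContinuousAt (fun y => cb (f y)) x := by
  unfold cb
  exact hf.sub (hf.inv₀ h)

private theorem Cont12_zp {x : ℂ} (hx : x ≠ 0) (m : ℤ) : ContinuousAt (fun y : ℂ => y ^ m) x :=
  continuousAt_zpow₀ x m (Or.inl hx)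

private theorem Cont12_Bmat (n N : ℕ) (x : ℂ) :
    ContinuousAt (fun q : ℂ => Bmat N (q ^ n) q) x := by
  have hid : ContinuousAt (fun q : ℂ => q) x := continuousAt_id
  refine continuousAt_pi.2 fun k => continuousAt_pi.2 fun j => ?_
  change ContinuousAt (fun q : ℂ => qbin (q ^ 2) k j *
    (((q ^ n) ^ 2) ^ (j : ℕ) * (q ^ 2) ^ ((j : ℕ) * ((j : ℕ) - 1)))) x
  exact (Cont12_qbin (hid.pow 2) k j).mul ((((hid.pow n).pow 2).pow _).mul ((hid.pow 2).pow _))

private theorem Cont12_facC (n N : ℕ) (x : ℂ) (hx : x ≠ 0) (i : ℕ) (h : x ^ (2 * (i + 1)) ≠ 1) :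
    ContinuousAt (fun q : ℂ => facC N (q ^ n) q i) x := by
  have hid : ContinuousAt (fun q : ℂ => q) x := continuousAt_id
  have hcb : cb (x ^ ((i : ℤ) + 1)) ≠ 0 := by
    unfold cb
    intro h0
    apply h
    have hp : x ^ ((i : ℤ) + 1) ≠ 0 := zpow_ne_zero _ hx
    have h1 : x ^ ((i : ℤ) + 1) * x ^ ((i : ℤ) + 1) = 1 := by
      have h2 : x ^ ((i : ℤ) + 1) = (x ^ ((i : ℤ) + 1))⁻¹ := sub_eq_zero.1 h0
      calc x ^ ((i : ℤ) + 1) * x ^ ((i : ℤ) + 1)
          = x ^ ((i : ℤ) + 1) * (x ^ ((i : ℤ) + 1))⁻¹ := by rw [← h2]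
        _ = 1 := mul_inv_cancel₀ hp
    have h3 : x ^ (2 * (i + 1)) = x ^ ((i : ℤ) + 1) * x ^ ((i : ℤ) + 1) := by
      rw [← zpow_add₀ hx, ← zpow_natCast]
      congr 1
      push_cast
      ring
    rw [h3, h1]
  unfold facC
  refine ContinuousAt.neg ?_
  refine (((hid.pow n).pow 2).mul ((hid.pow 2).pow i)).mul ?_
  refine ContinuousAt.mul ?_ (ContinuousAt.mul ?_ ?_)
  · exact (Cont12_cb (Cont12_zp hx _) (zpow_ne_zero _ hx)).div
      (Cont12_cb (Cont12_zp hx _) (zpow_ne_zero _ hx)) hcb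
  · exact Cont12_cb ((hid.pow n).mul (Cont12_zp hx _))
      (mul_ne_zero (pow_ne_zero _ hx) (zpow_ne_zero _ hx))
  · exact Cont12_cb ((hid.pow n).mul (Cont12_zp hx _))
      (mul_ne_zero (pow_ne_zero _ hx) (zpow_ne_zero _ hx))

private theorem Cont12_entry {n N : ℕ} {x : ℂ} {M : ℂ → Matrix (Fin (N + 1)) (Fin (N + 1)) ℂ}
    (hM : ContinuousAt M x) (i j : Fin (N + 1)) : ContinuousAt (fun q => M q i j) x :=
  (continuousAt_pi.1 ((continuousAt_pi.1 hM) i)) j

private theorem Cont12_Cmat (n N : ℕ) (x : ℂ) (hx : x ≠ 0)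
    (h : ∀ i : ℕ, i < N → x ^ (2 * (i + 1)) ≠ 1) :
    ContinuousAt (fun q : ℂ => Cmat N (q ^ n) q) x := by
  refine continuousAt_pi.2 fun j => continuousAt_pi.2 fun k => ?_
  change ContinuousAt (fun q : ℂ => (∏ i ∈ Finset.Ico (j : ℕ) k, facC N (q ^ n) q i) *
    Bmat N (q ^ n) q k j) x
  refine ContinuousAt.mul ?_ (Cont12_entry (n := n) (Cont12_Bmat n N x) k j)
  refine tendsto_finsetProd _ fun i hi => ?_
  have hik := (Finset.mem_Ico.1 hi).2
  have hk : (k : ℕ) < N + 1 := k.2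
  exact Cont12_facC n N x hx i (h i (by omega))

private theorem Cont12_inv {N : ℕ} {x : ℂ} {M : ℂ → Matrix (Fin (N + 1)) (Fin (N + 1)) ℂ}
    (hM : ContinuousAt M x) (hd : IsUnit (M x).det) : ContinuousAt (fun q => (M q)⁻¹) x := by
  have h1 : ContinuousAt Ring.inverse (M x).det := by
    rw [Ring.inverse_eq_inv']
    exact continuousAt_inv₀ hd.ne_zero
  exact ContinuousAt.comp (g := fun X : Matrix (Fin (N + 1)) (Fin (N + 1)) ℂ => X⁻¹)
    (continuousAt_matrix_inv (M x) h1) hM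

private theorem Cont12_zpow {N : ℕ} {x : ℂ} {M : ℂ → Matrix (Fin (N + 1)) (Fin (N + 1)) ℂ}
    (hM : ContinuousAt M x) (hd : IsUnit (M x).det) (r : ℤ) : ContinuousAt (fun q => (M q) ^ r) x := by
  rcases Int.eq_nat_or_neg r with ⟨n, h | h⟩
  · subst h
    simp only [zpow_natCast]
    exact hM.pow n
  · subst h
    simp only [Matrix.zpow_neg_natCast]
    exact Cont12_inv (hM.pow n) (Tri_unit_pow hd n)

private theorem Cont12_Cunit (N : ℕ) (A x : ℂ) (hA : A ≠ 0) (hx : x ≠ 0) :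
    IsUnit (Cmat N A x).det := by
  have hu := isUnit_det_of_low (Bmat N A x) (Bmat_low N A x) (Bmat_diag N A x hA hx)
  have h1 : Cmat N A x = tw (facC N A x) (Bmat N A x) := rfl
  have h2 : tw (facC N A x) (Bmat N A x)⁻¹ * tw (facC N A x) (Bmat N A x) = 1 := by
    rw [← Tri_tw_mul _ (Bmat_low N A x) (Tri_low_inv (Bmat_low N A x) hu),
      Matrix.mul_nonsing_inv _ hu, Tri_tw_one]
  rw [h1]
  exact Matrix.isUnit_det_of_left_inverse h2

private theorem Cont12_chain (n N : ℕ) (x : ℂ) (hx : x ≠ 0)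
    (h : ∀ i : ℕ, i < N → x ^ (2 * (i + 1)) ≠ 1) :
    ∀ l : List ℤ, ContinuousAt (fun q => chainMat N (q ^ n) q l) x
  | [] => continuousAt_const
  | [a] => Cont12_zpow (M := fun q => Cmat N (q ^ n) q) (Cont12_Cmat n N x hx h)
      (Cont12_Cunit N (x ^ n) x (pow_ne_zero _ hx) hx) a
  | a :: b :: l => by
    have hC := Cont12_zpow (M := fun q => Cmat N (q ^ n) q) (Cont12_Cmat n N x hx h)
      (Cont12_Cunit N (x ^ n) x (pow_ne_zero _ hx) hx) a
    have hB := Cont12_zpow (M := fun q => Bmat N (q ^ n) q) (Cont12_Bmat n N x)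
      (isUnit_det_of_low _ (Bmat_low N _ _) (Bmat_diag N _ _ (pow_ne_zero _ hx) hx)) b
    exact (hC.mul hB).mul (Cont12_chain n N x hx h l)

theorem suChain_continuousAt (l : List ℤ) (n N : ℕ) (x : ℂ) (hx : x ≠ 0)
    (h : ∀ i : ℕ, i < N → x ^ (2 * (i + 1)) ≠ 1) :
    ContinuousAt (fun q => suChain l n N q) x :=
  Cont12_entry (n := n) (Cont12_chain n N x hx h l) 0 0

theorem suChain_tendsto (l : List ℤ) (n N a : ℕ) (ha : 1 ≤ a) :
    Tendsto (fun q => suChain l n N q)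
      (𝓝[≠] Complex.exp (Real.pi * Complex.I / (N + a)))
      (𝓝 (suChain l n N (Complex.exp (Real.pi * Complex.I / (N + a))))) := by
  have hpos : (0 : ℝ) < (N : ℝ) + a := by
    have : (1 : ℝ) ≤ a := by exact_mod_cast ha
    positivity
  have h : ContinuousAt (fun q => suChain l n N q) (Complex.exp (Real.pi * Complex.I / (N + a))) := by
    apply suChain_continuousAt l n N _ (Complex.exp_ne_zero _)
    intro i hi hcon
    rw [← Complex.exp_nat_mul, Complex.exp_eq_one_iff] at hcon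
    obtain ⟨m, hm⟩ := hcon
    have hne : ((N : ℂ) + a) ≠ 0 := by
      have : (((N : ℝ) + a : ℝ) : ℂ) ≠ 0 := by exact_mod_cast hpos.ne'
      push_cast at this
      exact this
    have hpi : (Real.pi : ℂ) ≠ 0 := by exact_mod_cast Real.pi_ne_zero
    have h1 : ((i : ℂ) + 1) = m * (N + a) := by
      have h2 : ((2 * (i + 1) : ℕ) : ℂ) * (Real.pi * Complex.I / (N + a)) =
          m * (2 * Real.pi * Complex.I) := hm
      push_cast at h2
      field_simp at h2
      linear_combination h2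
    have h3 : ((i : ℤ) + 1) = m * (N + a) := by
      have : (((i : ℤ) + 1 : ℤ) : ℂ) = ((m * (N + a) : ℤ) : ℂ) := by
        push_cast
        exact h1
      exact_mod_cast this
    have h4 : (i : ℤ) < N := by exact_mod_cast hi
    have h5 : (1 : ℤ) ≤ a := by exact_mod_cast ha
    rcases le_or_gt m 0 with hm0 | hm0
    · have h6 : m * ((N : ℤ) + a) ≤ 0 := mul_nonpos_of_nonpos_of_nonneg hm0 (by omega)
      omega
    · have h6 : 1 * ((N : ℤ) + a) ≤ m * ((N : ℤ) + a) :=
        mul_le_mul_of_nonneg_right (by omega) (by omega)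
      omega
  exact h.tendsto.mono_left nhdsWithin_le_nhds

end Pool.Agent.H63.VC12
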