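import Pool.Agent.H63.VC.DTone
import Pool.Agent.H63.VC11.Ev11
import Pool.Agent.H63.VC12.Cont12
import Pool.Agent.H63.VC12.Path12
import Pool.Agent.H63.VC4.Checks
import Pool.Agent.H63.VC6.Final6
import Pool.Agent.H63.VC6.LogL

/-! # The colored `SU(n)` invariants of two-bridge knots at the roots of unity -/

namespace Pool.Agent.H63.VC12

open Pool.Agent.H63.VC Pool.Agent.H63.VC4 Pool.Agent.H63.VC5 Pool.Agent.H63.VC11 Filter Topology

theorem Fin12_lim (m : ℕ) (hm : Even (m + 1)) (r : Fin (m + 1) → ℤ) (n N a : ℕ) (hn : 2 ≤ n)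
    (ha : 1 ≤ a) :
    Tendsto (fun q => coloredSU (diagram Fin.castSucc r) n N q)
      (𝓝[≠] Complex.exp (Real.pi * Complex.I / (N + a)))
      (𝓝 (suChain ((List.finRange (m + 1)).map r) n N
        (Complex.exp (Real.pi * Complex.I / (N + a))))) := by
  refine (suChain_tendsto _ n N a ha).congr' ?_
  filter_upwards [Ev11_gen _ n N] with q hq
  exact (coloredSU_path q n N m hm hq hn r).symm

/-- The complex volume conjecture for two-bridge knots. -/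
theorem final12 (g : ℕ) (hg : 1 ≤ g) (r : ℕ → ℤ) (h1 : ∀ i, i < 2 * g → 10 ≤ |r i|)
    (h2 : ∀ i, 1 ≤ i → i + 1 < 2 * g → 20 ≤ |r i|) :
    ∃ V C : ℝ, IsGreatest (structureVolumes (conway ((List.range (2 * g)).map r))) V ∧
    (∃ Z : ℂ, IsComplexVolume (conway ((List.range (2 * g)).map r)) (decide (r 0 < 0)) Z ∧
      ∃ k : ℤ, Z = Complex.I * (V + C * Complex.I) + k * (Real.pi : ℂ) ^ 2) ∧
    ∀ n a : ℕ, 2 ≤ n → 1 ≤ a → a ≤ n - 1 → ∃ J : ℕ → ℂ,
      (∀ N : ℕ, Tendsto (fun q => coloredSU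
          (diagram (m := 2 * g - 1) Fin.castSucc (fun i => r i)) n N q)
        (𝓝[≠] Complex.exp (Real.pi * Complex.I / (N + a))) (𝓝 (J N))) ∧
      (∃ L : ℕ → ℂ, (∀ᶠ N : ℕ in atTop, Complex.exp (L N) = J N) ∧
        Tendsto (fun N : ℕ => 2 * (Real.pi : ℂ) * L N / (N + 1)) atTop
          (𝓝 (V + C * Complex.I))) ∧
      Tendsto (fun N : ℕ => 2 * (Real.pi : ℂ) * Complex.log (J N) / (N + 1)) atTop (𝓝 (V : ℂ)) ∧
      ∃ κ : ℂ, κ ≠ 0 ∧ Tendsto (fun N : ℕ => J N /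
        ((((N : ℝ) + a) ^ (2 * (n : ℝ) - 5 / 2) : ℝ) *
          Complex.exp ((N + a) * (V + C * Complex.I) / (2 * Real.pi)))) atTop (𝓝 κ) := by
  obtain ⟨G, rfl⟩ : ∃ G, g = G + 1 := ⟨g - 1, by omega⟩
  obtain ⟨V, C, hV, hZ, h⟩ := Pool.Agent.H63.VC6.final_chain6 G r (fun i hi => h1 i (by omega))
    (fun i hi hi' => h2 i hi (by omega))
  refine ⟨V, C, hV, hZ, fun n a hn ha han => ?_⟩
  obtain ⟨hlog, κ, hκ, hlim⟩ := h n a hn ha han
  have e : (List.finRange (2 * (G + 1) - 1 + 1)).map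
      (fun i : Fin (2 * (G + 1) - 1 + 1) => r (i : ℕ)) = (List.range (2 * (G + 1))).map r := by
    rw [show 2 * (G + 1) = 2 * (G + 1) - 1 + 1 by omega, ← List.map_coe_finRange_eq_range,
      List.map_map]
    rfl
  refine ⟨fun N => suChain ((List.range (2 * (G + 1))).map r) n N
    (Complex.exp (Real.pi * Complex.I / (N + a))), fun N => ?_,
    Pool.Agent.H63.VC6.log_lift _ a ha _ _ κ hκ hlim, hlog, κ, hκ, hlim⟩
  have := Fin12_lim (2 * (G + 1) - 1) ⟨G + 1, by omega⟩ (fun i => r i) n N a hn ha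
  rwa [e] at this

/-- The volume conjecture for the knots `C(2 p, 2 p)`. -/
theorem final12_double (p : ℕ) (hp : 1 ≤ p) :
    ∃ V : ℝ, IsGreatest (structureVolumes [2 * p, 2 * p]) V ∧
    ∀ n a : ℕ, 2 ≤ n → 1 ≤ a → a ≤ n - 1 → ∃ J : ℕ → ℂ,
      (∀ N : ℕ, Tendsto (fun q => coloredSU
          (diagram (m := 1) Fin.castSucc ![(p : ℤ), -(p : ℤ)]) n N q)
        (𝓝[≠] Complex.exp (Real.pi * Complex.I / (N + a))) (𝓝 (J N))) ∧
      Tendsto (fun N : ℕ => 2 * (Real.pi : ℂ) * Complex.log (J N) / (N + 1))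
        atTop (𝓝 (V : ℂ)) := by
  obtain ⟨V, hV, h⟩ := dt_all p hp
  refine ⟨V, hV, fun n a hn ha han => ?_⟩
  refine ⟨fun N => suDoubleTwist p n N (Complex.exp (Real.pi * Complex.I / (N + a))),
    fun N => ?_, h n a hn ha han⟩
  have h1 := Fin12_lim 1 ⟨1, rfl⟩ ![(p : ℤ), -(p : ℤ)] n N a hn ha
  have e : (List.finRange (1 + 1)).map ![(p : ℤ), -(p : ℤ)] = [(p : ℤ), -(p : ℤ)] := rfl
  rw [e, suChain_two p (-(p : ℤ)) n N _ (Complex.exp_ne_zero _)] at h1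
  convert h1 using 2
  unfold suDoubleTwist homflyDoubleTwist Pool.Agent.H63.VC3.suK Pool.Agent.H63.VC3.homflyK
    Pool.Agent.H63.VC3.twistFactor
  refine Finset.sum_congr rfl fun k _ => ?_
  rw [if_neg (by omega), neg_neg, Int.toNat_natCast]

end Pool.Agent.H63.VC12
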