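import Pool.Agent.H63.VC11.PhEq11
import Pool.Agent.H63.VC4.Defs

/-! # The rotation applied twice -/

namespace Pool.Agent.H63.VC12

open Pool.Agent.H63.VC7 Pool.Agent.H63.VC8 Pool.Agent.H63.VC11 Pool.Agent.H63.VC4

theorem dimS_ne (q : ℂ) (n N : ℕ) (hg : Gen q n N) (hn : 2 ≤ n) : dimS n N q ≠ 0 := by
  unfold dimS
  refine Finset.prod_ne_zero_iff.2 fun i hi => ?_
  have hi' : i < N := Finset.mem_range.1 hi
  exact div_ne_zero (hg.br_ne (by omega) (by omega)) (hg.br_ne (by omega) (by omega))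

theorem dimA_ne (q : ℂ) (n N X : ℕ) (hg : Gen q n N) (hn : 2 ≤ n) (hX : X ≤ N) :
    dimA n q X ≠ 0 := by
  unfold dimA
  refine mul_ne_zero (div_ne_zero (hg.br_ne (by omega) (by omega)) (hg.br_ne (by omega) (by omega)))
    (Finset.prod_ne_zero_iff.2 fun i hi => ?_)
  have hi' : i < X := Finset.mem_range.1 hi
  exact pow_ne_zero _ (div_ne_zero (hg.br_ne (by omega) (by omega)) (hg.br_ne (by omega) (by omega)))

/-- `Ph` is linear. -/
theorem Ph_sum (q : ℂ) (n N : ℕ) (hg : Gen q n N) (hn : 2 ≤ n) {ι : Type*} (s : Finset ι)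
    (c : ι → ℂ) (F : ι → ℕ → ℂ) (X : ℕ) :
    Ph q n N (fun Y => ∑ i ∈ s, c i * F i Y) X = ∑ i ∈ s, c i * Ph q n N (F i) X := by
  simp only [Ph_eq q n N hg hn, Finset.mul_sum]
  rw [Finset.sum_comm]
  refine Finset.sum_congr rfl fun i _ => Finset.sum_congr rfl fun Y _ => ?_
  ring

theorem Ph_congr (q : ℂ) (n N : ℕ) (hg : Gen q n N) (hn : 2 ≤ n) (f g : ℕ → ℂ)
    (h : ∀ Y ≤ N, f Y = g Y) (X : ℕ) : Ph q n N f X = Ph q n N g X := by
  simp only [Ph_eq q n N hg hn]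
  refine Finset.sum_congr rfl fun Y hY => ?_
  rw [h Y (Nat.lt_succ_iff.1 (Finset.mem_range.1 hY))]

private theorem PhPh12_EE (q : ℂ) (n N j X : ℕ) (hg : Gen q n N) (hn : 2 ≤ n) (hj : j ≤ N) :
    Ph q n N (EE q n N j) X = EE q n N (N - j) X := by
  rw [Ph_eq q n N hg hn, sixn_EE q n N j X hg hn hj]

theorem Ph_Ph (q : ℂ) (n N : ℕ) (hg : Gen q n N) (hn : 2 ≤ n) (f : ℕ → ℂ) (X : ℕ) (hX : X ≤ N) :
    Ph q n N (Ph q n N f) X = f X := by
  have h1 : Ph q n N f = fun Y => ∑ j ∈ Finset.range (N + 1), nt q n N f j * EE q n N (N - j) Y := rfl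
  rw [h1, Ph_sum q n N hg hn, f_nt q N hg (by omega) f X hX]
  refine Finset.sum_congr rfl fun j hj => ?_
  have hj' : j ≤ N := Nat.lt_succ_iff.1 (Finset.mem_range.1 hj)
  rw [PhPh12_EE q n N (N - j) X hg hn (by omega), Nat.sub_sub_self hj']

private theorem PhPh12_sixn_zero (q : ℂ) (n N Y : ℕ) : sixn n q N 0 Y = 1 := by
  unfold sixn
  rw [Finset.sum_range_succ', Finset.sum_eq_zero]
  · simp
  · intro t _
    rw [Finset.prod_eq_zero (Finset.mem_range.2 (Nat.succ_pos t)), mul_zero]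
    have : br q (((0 : ℕ) : ℤ) - ((0 : ℕ) : ℤ)) = 0 := by
      simp [br]
    rw [this]
    simp

private theorem PhPh12_sixn_symm (q : ℂ) (n N X Y : ℕ) : sixn n q N X Y = sixn n q N Y X := by
  unfold sixn
  refine Finset.sum_congr rfl fun t _ => ?_
  congr 1
  refine Finset.prod_congr rfl fun i _ => ?_
  congr 1
  ring

theorem Ph_zero (q : ℂ) (n N : ℕ) (hg : Gen q n N) (hn : 2 ≤ n) (f : ℕ → ℂ) :
    dimS n N q * Ph q n N f 0 = ∑ Y ∈ Finset.range (N + 1), dimA n q Y * f Y := by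
  have h0 := dimS_ne q n N hg hn
  rw [Ph_eq q n N hg hn, Finset.mul_sum]
  refine Finset.sum_congr rfl fun Y _ => ?_
  rw [PhPh12_sixn_zero]
  field_simp

/-- `Ph` is symmetric for the bilinear form given by `dimA`. -/
theorem Ph_symm (q : ℂ) (n N : ℕ) (hg : Gen q n N) (hn : 2 ≤ n) (f g : ℕ → ℂ) :
    ∑ X ∈ Finset.range (N + 1), dimA n q X * (Ph q n N f X * g X) =
      ∑ X ∈ Finset.range (N + 1), dimA n q X * (f X * Ph q n N g X) := by
  simp only [Ph_eq q n N hg hn, Finset.mul_sum, Finset.sum_mul]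
  rw [Finset.sum_comm]
  refine Finset.sum_congr rfl fun Y _ => Finset.sum_congr rfl fun X _ => ?_
  rw [PhPh12_sixn_symm q n N X Y]
  ring

end Pool.Agent.H63.VC12
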