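import Pool.Agent.H63.VC12.Bas12
import Pool.Agent.H63.VC12.PhPh12

/-! # Orthogonality -/

namespace Pool.Agent.H63.VC12

open Pool.Agent.H63.VC7 Pool.Agent.H63.VC8 Pool.Agent.H63.VC11 Pool.Agent.H63.VC4

/-- The coefficients of `sixn_om`. -/
noncomputable def kap (q : ℂ) (n N t : ℕ) : ℂ :=
  (-1) ^ t * (qf q (n - 2) * qf q (N + n - 1) * qf q (N - t) /
    (qf q t * qf q (n + t - 2) * qf q (N + n + t - 1) * qf q N))

theorem Gram12_om_self (q : ℂ) (n N t : ℕ) (hg : Gen q n N) (hn : 2 ≤ n) (ht : t ≤ N) :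
    om q n t t ≠ 0 := by
  unfold om
  rw [Finset.prod_ne_zero_iff]
  intro i hi
  have hi' := Finset.mem_range.1 hi
  exact mul_ne_zero (hg.qn_ne (by omega) (by omega) (by omega))
    (hg.qn_ne (by omega) (by omega) (by omega))

/-- The functions `om q n t`, `t ≤ N`, are linearly independent. -/
theorem om_indep (q : ℂ) (n N : ℕ) (hg : Gen q n N) (hn : 2 ≤ n) (c : ℕ → ℂ)
    (h : ∀ X ≤ N, ∑ t ∈ Finset.range (N + 1), c t * om q n t X = 0) : ∀ t ≤ N, c t = 0 := by
  intro t
  induction t using Nat.strong_induction_on with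
  | _ t ih =>
    intro ht
    have h1 := h t ht
    rw [Finset.sum_eq_single t] at h1
    · exact (mul_eq_zero.1 h1).resolve_right (Gram12_om_self q n N t hg hn ht)
    · intro s hs hst
      have hs' := Finset.mem_range.1 hs
      rcases Nat.lt_or_gt_of_ne hst with h2 | h2
      · rw [ih s h2 (by omega), zero_mul]
      · rw [om_lt q n s t h2, mul_zero]
    · intro h2
      exact absurd (Finset.mem_range.2 (by omega)) h2

theorem Gram12_cb (q : ℂ) (a : ℤ) : Pool.Agent.H63.VC.cb (q ^ a) = br q a := by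
  unfold Pool.Agent.H63.VC.cb br
  rw [zpow_neg]

theorem kap_Pk (q : ℂ) (n N k : ℕ) (hg : Gen q n N) (hn : 2 ≤ n) (hk : k ≤ N) :
    bet q n k ^ 2 = Pk q n N k * kap q n N k := by
  obtain ⟨r, rfl⟩ : ∃ r, n = r + 2 := ⟨n - 2, by omega⟩
  have hq := hg.1
  have hb := hg.br_one (by omega)
  induction k with
  | zero =>
    have h1 := hg.qf_ne (by omega) (k := r) (by omega)
    have h2 := hg.qf_ne (by omega) (k := N + r + 1) (by omega)
    have h3 := hg.qf_ne (by omega) (k := N) (by omega)
    simp only [bet, Pk, kap, qf_zero, Finset.range_zero, Finset.prod_empty, Nat.choose_zero_succ,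
      Nat.sub_zero, pow_zero, Nat.cast_zero, mul_zero, add_zero, zpow_zero, mul_one,
      one_mul, div_one, one_pow, Nat.add_sub_cancel]
    rw [show N + (r + 2) - 1 = N + r + 1 by omega]
    field_simp
  | succ k ih =>
    have ih' := ih (by omega)
    have h1 := hg.qf_ne (by omega) (k := r) (by omega)
    have h2 := hg.qf_ne (by omega) (k := N + r + 1) (by omega)
    have h3 := hg.qf_ne (by omega) (k := N) (by omega)
    have h4 := hg.qf_ne (by omega) (k := k) (by omega)
    have h5 := hg.qf_ne (by omega) (k := r + k) (by omega)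
    have h6 := hg.qf_ne (by omega) (k := N + r + k + 1) (by omega)
    have h7 := hg.qn_ne (by omega) (a := (k : ℤ) + 1) (by omega) (by push_cast; omega)
    have h8 := hg.qn_ne (by omega) (a := (r : ℤ) + k + 1) (by omega) (by push_cast; omega)
    have h9 := hg.qn_ne (by omega) (a := (N : ℤ) + r + k + 2) (by omega) (by push_cast; omega)
    have h10 := hg.qn_ne (by omega) (a := (N : ℤ) - k) (by omega) (by push_cast; omega)
    have h11 := hg.qf_ne (by omega) (k := N - (k + 1)) (by omega)
    have f1 : qf q (N - k) = qf q (N - (k + 1)) * qn q ((N : ℤ) - k) := by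
      rw [show N - k = (N - (k + 1)) + 1 by omega, qf_succ,
        show (((N - (k + 1) : ℕ) : ℤ) + 1) = (N : ℤ) - k by omega]
    have f2 : qf q (k + 1) = qf q k * qn q ((k : ℤ) + 1) := qf_succ q k
    have f3 : qf q (r + 2 + (k + 1) - 2) = qf q (r + k) * qn q ((r : ℤ) + k + 1) := by
      rw [show r + 2 + (k + 1) - 2 = (r + k) + 1 by omega, qf_succ]
      congr 2
    have f4 : qf q (N + (r + 2) + (k + 1) - 1) = qf q (N + r + k + 1) * qn q ((N : ℤ) + r + k + 2) := by
      rw [show N + (r + 2) + (k + 1) - 1 = (N + r + k + 1) + 1 by omega, qf_succ]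
      congr 2
    have hk1 : kap q (r + 2) N (k + 1) * (qn q ((k : ℤ) + 1) * qn q ((r : ℤ) + k + 1) *
        qn q ((N : ℤ) + r + k + 2) * qn q ((N : ℤ) - k)) = -kap q (r + 2) N k := by
      unfold kap
      rw [f1, f2, f3, f4, show r + 2 + k - 2 = r + k by omega,
        show N + (r + 2) + k - 1 = N + r + k + 1 by omega, pow_succ]
      field_simp
    have hP1 : Pk q (r + 2) N (k + 1) = Pk q (r + 2) N k *
        (-(q ^ (2 * ((r : ℤ) + 2) + 2 * k) * (qn q ((N : ℤ) - k) / qn q ((k : ℤ) + 1) *
          (qn q ((N : ℤ) + r + k + 2) * qn q ((r : ℤ) + k + 1))) * br q 1 ^ 2)) := by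
      unfold Pk
      rw [Finset.prod_range_succ]
      congr 1
      unfold facC
      have hbb : ∀ a : ℤ, br q a = qn q a * br q 1 := by
        intro a
        unfold qn
        rw [div_mul_cancel₀ _ hb]
      have g1 : q ^ (r + 2) * q ^ ((N : ℤ) + k) = q ^ ((N : ℤ) + r + k + 2) := by
        rw [← zpow_natCast, ← zpow_add₀ hq]
        congr 1
        push_cast
        ring
      have g2 : q ^ (r + 2) * q ^ ((k : ℤ) - 1) = q ^ ((r : ℤ) + k + 1) := by
        rw [← zpow_natCast, ← zpow_add₀ hq]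
        congr 1
        push_cast
        ring
      have g3 : (q ^ (r + 2)) ^ 2 * (q ^ 2) ^ k = q ^ (2 * ((r : ℤ) + 2) + 2 * k) := by
        rw [← pow_mul, ← pow_mul, ← pow_add, ← zpow_natCast]
        congr 1
        push_cast
        ring
      rw [g1, g2, g3, Gram12_cb, Gram12_cb, Gram12_cb, Gram12_cb, hbb ((N : ℤ) - k),
        hbb ((k : ℤ) + 1), hbb ((N : ℤ) + r + k + 2), hbb ((r : ℤ) + k + 1)]
      field_simp
    have hB1 : bet q (r + 2) (k + 1) ^ 2 * qn q ((k : ℤ) + 1) ^ 2 =
        bet q (r + 2) k ^ 2 * (q ^ (2 * ((r : ℤ) + 2) + 2 * k) * br q 1 ^ 2) := by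
      have g4 : q ^ ((((r + 2 : ℕ) : ℤ)) * ((k + 1 : ℕ) : ℤ) + ((k + 1).choose 2 : ℕ)) =
          q ^ (((r + 2 : ℕ) : ℤ) * k + (k.choose 2 : ℕ)) * q ^ (((r : ℤ) + 2) + k) := by
        rw [← zpow_add₀ hq]
        congr 1
        have : (k + 1).choose 2 = k + k.choose 2 := by
          rw [Nat.choose_succ_succ' k 1, Nat.choose_one_right]
        rw [this]
        push_cast
        ring
      have g5 : q ^ (2 * ((r : ℤ) + 2) + 2 * k) = (q ^ (((r : ℤ) + 2) + k)) ^ 2 := by
        rw [← zpow_natCast, ← zpow_mul]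
        congr 1
        push_cast
        ring
      unfold bet
      rw [f2, g4, g5]
      field_simp
      ring
    have hne : qn q ((k : ℤ) + 1) ^ 2 ≠ 0 := pow_ne_zero _ h7
    have hne2 : (qn q ((k : ℤ) + 1) * qn q ((r : ℤ) + k + 1) *
        qn q ((N : ℤ) + r + k + 2) * qn q ((N : ℤ) - k)) ≠ 0 :=
      mul_ne_zero (mul_ne_zero (mul_ne_zero h7 h8) h9) h10
    have hk2 : kap q (r + 2) N k = -(kap q (r + 2) N (k + 1) * (qn q ((k : ℤ) + 1) *
        qn q ((r : ℤ) + k + 1) * qn q ((N : ℤ) + r + k + 2) * qn q ((N : ℤ) - k))) := by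
      rw [hk1, neg_neg]
    refine mul_right_cancel₀ hne ?_
    rw [hB1, ih', hP1, hk2]
    field_simp

/-- The Gram matrix. -/
noncomputable def Gram12_G (q : ℂ) (n N s t : ℕ) : ℂ :=
  ∑ X ∈ Finset.range (N + 1), dimA n q X * (om q n s X * om q n t X)

theorem Gram12_symm (q : ℂ) (n N s t : ℕ) : Gram12_G q n N s t = Gram12_G q n N t s := by
  unfold Gram12_G
  exact Finset.sum_congr rfl fun X _ => by ring

theorem Gram12_sixn (q : ℂ) (n N : ℕ) (hg : Gen q n N) (hn : 2 ≤ n) (X Y : ℕ) :
    sixn n q N X Y = ∑ t ∈ Finset.range (N + 1), kap q n N t * (om q n t X * om q n t Y) :=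
  sixn_om q n N hg hn X Y

theorem Gram12_Ph (q : ℂ) (n N : ℕ) (hg : Gen q n N) (hn : 2 ≤ n) (k X : ℕ) :
    Ph q n N (om q n k) X = ∑ t ∈ Finset.range (N + 1),
      (kap q n N t * Gram12_G q n N t k / dimS n N q) * om q n t X := by
  rw [Ph_eq q n N hg hn]
  have h1 : ∀ Y ∈ Finset.range (N + 1), dimA n q Y / dimS n N q * sixn n q N X Y * om q n k Y =
      ∑ t ∈ Finset.range (N + 1), kap q n N t * om q n t X / dimS n N q *
        (dimA n q Y * (om q n t Y * om q n k Y)) := by
    intro Y _
    rw [Gram12_sixn q n N hg hn, Finset.mul_sum, Finset.sum_mul]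
    exact Finset.sum_congr rfl fun t _ => by ring
  rw [Finset.sum_congr rfl h1, Finset.sum_comm]
  refine Finset.sum_congr rfl fun t _ => ?_
  rw [← Finset.mul_sum]
  unfold Gram12_G
  ring

theorem Gram12_main (q : ℂ) (n N : ℕ) (hg : Gen q n N) (hn : 2 ≤ n) (s k : ℕ) (hs : s ≤ N)
    (hk : k ≤ N) :
    ∑ t ∈ Finset.range (N + 1), kap q n N s * (Gram12_G q n N s t * kap q n N t *
      Gram12_G q n N t k) = if s = k then dimS n N q ^ 2 else 0 := by
  have hd := dimS_ne q n N hg hn
  have h1 := om_indep q n N hg hn (fun s => (∑ t ∈ Finset.range (N + 1),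
      (kap q n N t * Gram12_G q n N t k / dimS n N q) *
        (kap q n N s * Gram12_G q n N s t / dimS n N q)) - (if s = k then 1 else 0)) ?_ s hs
  · have h2 := sub_eq_zero.1 h1
    have h3 : ∑ t ∈ Finset.range (N + 1), kap q n N s * (Gram12_G q n N s t * kap q n N t *
        Gram12_G q n N t k) = dimS n N q ^ 2 * ∑ t ∈ Finset.range (N + 1),
      (kap q n N t * Gram12_G q n N t k / dimS n N q) *
        (kap q n N s * Gram12_G q n N s t / dimS n N q) := by
      rw [Finset.mul_sum]
      refine Finset.sum_congr rfl fun t _ => ?_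
      field_simp
    rw [h3, h2]
    split_ifs <;> simp
  · intro X hX
    have h2 := Ph_Ph q n N hg hn (om q n k) X hX
    have h3 : Ph q n N (om q n k) = fun Y => ∑ t ∈ Finset.range (N + 1),
        (kap q n N t * Gram12_G q n N t k / dimS n N q) * om q n t Y := by
      funext Y
      exact Gram12_Ph q n N hg hn k Y
    rw [h3, Ph_sum q n N hg hn (Finset.range (N + 1))
      (fun t => kap q n N t * Gram12_G q n N t k / dimS n N q) (fun t => om q n t) X] at h2
    simp only [Gram12_Ph q n N hg hn] at h2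
    simp only [sub_mul, Finset.sum_sub_distrib]
    have h4 : ∑ s ∈ Finset.range (N + 1), (∑ t ∈ Finset.range (N + 1),
        kap q n N t * Gram12_G q n N t k / dimS n N q *
          (kap q n N s * Gram12_G q n N s t / dimS n N q)) * om q n s X = om q n k X := by
      rw [← h2]
      simp only [Finset.sum_mul, Finset.mul_sum]
      rw [Finset.sum_comm]
      exact Finset.sum_congr rfl fun t _ => Finset.sum_congr rfl fun s _ => by ring
    rw [h4]
    simp only [ite_mul, one_mul, zero_mul]
    rw [Finset.sum_ite_eq' (Finset.range (N + 1)) k, if_pos (Finset.mem_range.2 (by omega)),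
      sub_self]

theorem gram (q : ℂ) (n N : ℕ) (hg : Gen q n N) (hn : 2 ≤ n) (j k : ℕ) (hj : j ≤ N)
    (hk : k ≤ N) :
    ∑ X ∈ Finset.range (N + 1), dimA n q X * (cc q n N j X * bb q n k X) =
      if j = k then dimS n N q * Pk q n N k else 0 := by
  have hd := dimS_ne q n N hg hn
  have hkap : kap q n N k ≠ 0 := by
    intro h0
    have h1 := kap_Pk q n N k hg hn hk
    rw [h0, mul_zero] at h1
    have h2 : bet q n k ≠ 0 := by
      unfold bet
      exact div_ne_zero (mul_ne_zero (zpow_ne_zero _ hg.1)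
        (pow_ne_zero _ (hg.br_one (by omega)))) (hg.qf_ne (by omega) (by omega))
    exact (pow_ne_zero 2 h2) h1
  have hcc : ∀ X, cc q n N j X = bet q n j * Ph q n N (om q n j) X := by
    intro X
    have h1 := Ph_sum q n N hg hn {0} (fun _ : ℕ => bet q n j) (fun _ => om q n j) X
    simp only [Finset.sum_singleton] at h1
    exact h1
  have h1 : ∑ X ∈ Finset.range (N + 1), dimA n q X * (cc q n N j X * bb q n k X) =
      bet q n j * bet q n k / dimS n N q *
        ∑ t ∈ Finset.range (N + 1), Gram12_G q n N k t * kap q n N t * Gram12_G q n N t j := by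
    have h2 : ∀ X ∈ Finset.range (N + 1), dimA n q X * (cc q n N j X * bb q n k X) =
        ∑ t ∈ Finset.range (N + 1), bet q n j * bet q n k / dimS n N q *
          (kap q n N t * Gram12_G q n N t j) * (dimA n q X * (om q n t X * om q n k X)) := by
      intro X _
      rw [hcc, Gram12_Ph q n N hg hn]
      unfold bb
      rw [Finset.mul_sum, Finset.sum_mul, Finset.mul_sum]
      refine Finset.sum_congr rfl fun t _ => ?_
      field_simp
    rw [Finset.sum_congr rfl h2, Finset.sum_comm, Finset.mul_sum]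
    refine Finset.sum_congr rfl fun t _ => ?_
    rw [← Finset.mul_sum, Gram12_symm q n N k t]
    unfold Gram12_G
    ring
  have h3 := Gram12_main q n N hg hn k j hk hj
  rw [← Finset.mul_sum] at h3
  rw [h1]
  by_cases hjk : j = k
  · subst hjk
    rw [if_pos rfl] at h3 ⊢
    have h4 := kap_Pk q n N j hg hn hj
    have h5 : ∑ t ∈ Finset.range (N + 1), Gram12_G q n N j t * kap q n N t * Gram12_G q n N t j =
        dimS n N q ^ 2 / kap q n N j := by
      rw [eq_div_iff hkap, mul_comm, h3]
    rw [h5]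
    have h6 : bet q n j * bet q n j = Pk q n N j * kap q n N j := by rw [← h4]; ring
    rw [h6]
    field_simp
  · rw [if_neg (Ne.symm hjk)] at h3
    rw [if_neg hjk]
    rw [(mul_eq_zero.1 h3).resolve_left hkap, mul_zero]

end Pool.Agent.H63.VC12
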