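import Pool.Agent.H63.VC12.Bas12
import Pool.Agent.H63.VC11.Qb11

/-! # The full twist in the first basis -/

namespace Pool.Agent.H63.VC12

open Pool.Agent.H63.VC7 Pool.Agent.H63.VC8 Pool.Agent.H63.VC11 Pool.Agent.H63.VC4 Pool.Agent.H63.VC

/-- `∑ [X choose l] q ^ (l (1 - X)) ∏_{i<l} (z q ^ (2 i) - 1) = z ^ X`. -/
theorem G_sum (q z : ℂ) (hq : q ≠ 0) (X : ℕ) (h1 : br q 1 ≠ 0) (hf : ∀ j ≤ X + 1, qf q j ≠ 0) :
    ∑ l ∈ Finset.range (X + 1), qb q X l * q ^ ((l : ℤ) * (1 - X)) *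
      ∏ i ∈ Finset.range l, (z * q ^ (2 * i) - 1) = z ^ X := by
  induction X with
  | zero => simp [qb_zero_right]
  | succ X ih =>
    have ih' := ih (fun j hj => hf j (by omega))
    have key : ∀ l ∈ Finset.range (X + 1),
        qb q (X + 1) (l + 1) * q ^ (((l + 1 : ℕ) : ℤ) * (1 - ((X + 1 : ℕ) : ℤ))) *
          ∏ i ∈ Finset.range (l + 1), (z * q ^ (2 * i) - 1) =
        qb q X (l + 1) * q ^ (-(((l + 1 : ℕ) : ℤ) * (X + 1))) *
          ∏ i ∈ Finset.range (l + 1), (z * q ^ (2 * i) - 1) +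
        qb q X l * q ^ (-((l : ℤ) * (X + 1))) *
          (∏ i ∈ Finset.range l, (z * q ^ (2 * i) - 1)) * (z * q ^ (2 * l) - 1) := by
      intro l _
      rw [qb_succ' q hq h1 X l (fun j hj => hf j (by omega)), Finset.prod_range_succ]
      have e1 : q ^ (-((l : ℤ) + 1)) * q ^ (((l + 1 : ℕ) : ℤ) * (1 - ((X + 1 : ℕ) : ℤ))) =
          q ^ (-(((l + 1 : ℕ) : ℤ) * (X + 1))) := by
        rw [← zpow_add₀ hq]
        congr 1
        push_cast
        ring
      have e2 : q ^ ((X : ℤ) - l) * q ^ (((l + 1 : ℕ) : ℤ) * (1 - ((X + 1 : ℕ) : ℤ))) =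
          q ^ (-((l : ℤ) * (X + 1))) := by
        rw [← zpow_add₀ hq]
        congr 1
        push_cast
        ring
      rw [← e1, ← e2]
      ring
    rw [Finset.sum_range_succ', Finset.sum_congr rfl key, Finset.sum_add_distrib]
    have s1 : ∑ l ∈ Finset.range (X + 1), (qb q X (l + 1) *
          q ^ (-(((l + 1 : ℕ) : ℤ) * (X + 1))) *
          ∏ i ∈ Finset.range (l + 1), (z * q ^ (2 * i) - 1)) +
        qb q (X + 1) 0 * q ^ (((0 : ℕ) : ℤ) * (1 - ((X + 1 : ℕ) : ℤ))) *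
          ∏ i ∈ Finset.range 0, (z * q ^ (2 * i) - 1) =
        ∑ l ∈ Finset.range (X + 1), qb q X l * q ^ (-((l : ℤ) * (X + 1))) *
          ∏ i ∈ Finset.range l, (z * q ^ (2 * i) - 1) := by
      have h := Finset.sum_range_succ' (fun l => qb q X l * q ^ (-((l : ℤ) * (X + 1))) *
          ∏ i ∈ Finset.range l, (z * q ^ (2 * i) - 1)) (X + 1)
      rw [Finset.sum_range_succ, qb_lt q X (X + 1) (by omega), zero_mul, zero_mul, add_zero] at h
      rw [h]
      congr 1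
      simp [qb_zero_right]
    rw [add_right_comm, s1, ← Finset.sum_add_distrib, pow_succ', ← ih', Finset.mul_sum]
    refine Finset.sum_congr rfl fun l _ => ?_
    have e3 : q ^ ((l : ℤ) * (1 - X)) = q ^ (-((l : ℤ) * (X + 1))) * q ^ (2 * l) := by
      rw [← zpow_natCast q (2 * l), ← zpow_add₀ hq]
      congr 1
      push_cast
      ring
    rw [e3]
    ring

private theorem Tb12_qbin_lt (q : ℂ) (j k : ℕ) (h : j < k) : qbin q j k = 0 := by
  induction j generalizing k with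
  | zero =>
    obtain ⟨i, rfl⟩ : ∃ i, k = i + 1 := ⟨k - 1, by omega⟩
    rfl
  | succ j ih =>
    obtain ⟨i, rfl⟩ : ∃ i, k = i + 1 := ⟨k - 1, by omega⟩
    rw [qbin, ih i (by omega), ih (i + 1) (by omega), mul_zero, add_zero]

private theorem Tb12_qbin_self (q : ℂ) (j : ℕ) : qbin q j j = 1 := by
  induction j with
  | zero => rfl
  | succ j ih => rw [qbin, ih, Tb12_qbin_lt q j (j + 1) (by omega), mul_zero, add_zero]

private theorem Tb12_qbin_zero (q : ℂ) (j : ℕ) : qbin q j 0 = 1 := by cases j <;> rfl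

/-- The Gaussian binomial coefficients in both normalizations. -/
theorem qbin_qb (q : ℂ) (hq : q ≠ 0) (h1 : br q 1 ≠ 0) (j k : ℕ) (hkj : k ≤ j)
    (hf : ∀ i ≤ j, qf q i ≠ 0) :
    qbin (q ^ 2) j k = q ^ (k * (j - k)) * (qf q j / (qf q k * qf q (j - k))) := by
  induction j generalizing k with
  | zero =>
    obtain rfl : k = 0 := by omega
    simp [Tb12_qbin_zero, qf_zero]
  | succ j ih =>
    rcases Nat.eq_zero_or_pos k with rfl | hk
    · rw [Tb12_qbin_zero, zero_mul, pow_zero, qf_zero, one_mul, one_mul, Nat.sub_zero,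
        div_self (hf _ le_rfl)]
    · obtain ⟨k, rfl⟩ : ∃ i, k = i + 1 := ⟨k - 1, by omega⟩
      rcases Nat.lt_or_ge k j with hlt | hge
      · obtain ⟨m, rfl⟩ : ∃ m, j = k + 1 + m := ⟨j - (k + 1), by omega⟩
        have i1 := ih k (by omega) (fun i hi => hf i (by omega))
        have i2 := ih (k + 1) (by omega) (fun i hi => hf i (by omega))
        have e1 : k + 1 + m - k = m + 1 := by omega
        have e2 : k + 1 + m - (k + 1) = m := by omega
        have e3 : k + 1 + m + 1 - (k + 1) = m + 1 := by omega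
        rw [e1] at i1
        rw [e2] at i2
        rw [qbin, i1, i2, e3, qf_succ q (k + 1 + m), qf_succ q k, qf_succ q m]
        have n1 := hf k (by omega)
        have n2 := hf (k + 1) (by omega)
        have n3 := hf m (by omega)
        have n4 := hf (m + 1) (by omega)
        rw [qf_succ] at n2 n4
        have n5 := right_ne_zero_of_mul n2
        have n6 := right_ne_zero_of_mul n4
        have ha := qn_add q hq ((m : ℤ) + 1) ((k : ℤ) + 1)
        have e4 : (m : ℤ) + 1 + (k + 1) = (((k + 1 + m : ℕ) : ℤ) + 1) := by push_cast; ring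
        rw [e4] at ha
        have hb : q ^ (k * (m + 1)) * qn q ((k : ℤ) + 1) +
            (q ^ 2) ^ (k + 1) * q ^ ((k + 1) * m) * qn q ((m : ℤ) + 1) =
            q ^ ((k + 1) * (m + 1)) * qn q (((k + 1 + m : ℕ) : ℤ) + 1) := by
          have f1 : q ^ ((k + 1) * (m + 1)) * q ^ (-((m : ℤ) + 1)) = q ^ (k * (m + 1)) := by
            rw [← zpow_natCast q ((k + 1) * (m + 1)), ← zpow_natCast q (k * (m + 1)),
              ← zpow_add₀ hq]
            congr 1
            push_cast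
            ring
          have f2 : q ^ ((k + 1) * (m + 1)) * q ^ ((k : ℤ) + 1) =
              (q ^ 2) ^ (k + 1) * q ^ ((k + 1) * m) := by
            rw [← pow_mul, ← pow_add, show ((k : ℤ) + 1) = ((k + 1 : ℕ) : ℤ) by push_cast; rfl,
              zpow_natCast, ← pow_add]
            congr 1
            ring
          linear_combination (-qn q ((k : ℤ) + 1)) * f1 - qn q ((m : ℤ) + 1) * f2 +
            q ^ ((k + 1) * (m + 1)) * ha
        field_simp
        rw [show (m : ℤ) + 1 = 1 + m by ring, show (k : ℤ) + 1 = 1 + k by ring] at *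
        linear_combination (qf q (k + 1 + m)) * hb
      · obtain rfl : k = j := by omega
        rw [Tb12_qbin_self, Nat.sub_self, mul_zero, pow_zero, qf_zero, mul_one, one_mul,
          div_self (hf _ le_rfl)]

private theorem Tb12_om_add (q : ℂ) (n k X l : ℕ) :
    om q n (k + l) (k + X) = om q n k (k + X) *
      ((∏ i ∈ Finset.range l, qn q ((X : ℤ) + (n + 2 * k) - 1 + i)) *
        ∏ i ∈ Finset.range l, qn q ((X : ℤ) - i)) := by
  induction l with
  | zero => simp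
  | succ l ih =>
    rw [← add_assoc, Ker11_om_succ, ih, Finset.prod_range_succ, Finset.prod_range_succ]
    have e1 : (n : ℤ) + ((k + X : ℕ) : ℤ) + ((k + l : ℕ) : ℤ) - 1 =
        (X : ℤ) + (n + 2 * k) - 1 + l := by push_cast; ring
    have e2 : ((k + X : ℕ) : ℤ) - ((k + l : ℕ) : ℤ) = (X : ℤ) - l := by push_cast; ring
    rw [e1, e2]
    ring

private theorem Tb12_prod_fac (q : ℂ) (X l : ℕ) (hl : l ≤ X) :
    (∏ i ∈ Finset.range l, qn q ((X : ℤ) - i)) * qf q (X - l) = qf q X := by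
  induction l with
  | zero => simp
  | succ l ih =>
    have ih' := ih (by omega)
    have e1 : X - l = (X - (l + 1)) + 1 := by omega
    have e2 : (((X - (l + 1) : ℕ) : ℤ) + 1) = (X : ℤ) - l := by omega
    rw [e1, qf_succ, e2] at ih'
    rw [Finset.prod_range_succ]
    linear_combination ih'

private theorem Tb12_prod_br (q : ℂ) (hq : q ≠ 0) (h1 : br q 1 ≠ 0) (X m l : ℕ) :
    q ^ ((m : ℤ) * l + (l.choose 2 : ℕ)) * br q 1 ^ l *
      ∏ i ∈ Finset.range l, qn q ((X : ℤ) + m - 1 + i) =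
    q ^ ((l : ℤ) * (1 - X)) *
      ∏ i ∈ Finset.range l, (q ^ (2 * ((X : ℤ) + m - 1)) * q ^ (2 * i) - 1) := by
  induction l with
  | zero => simp
  | succ l ih =>
    rw [Finset.prod_range_succ, Finset.prod_range_succ, Nat.choose_succ_succ' l 1,
      Nat.choose_one_right]
    have e1 : q ^ ((m : ℤ) * ((l + 1 : ℕ) : ℤ) + ((l + l.choose 2 : ℕ) : ℤ)) =
        q ^ ((m : ℤ) * l + (l.choose 2 : ℕ)) * q ^ ((m : ℤ) + l) := by
      rw [← zpow_add₀ hq]
      congr 1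
      push_cast
      ring
    have e2 : q ^ (((l + 1 : ℕ) : ℤ) * (1 - X)) = q ^ ((l : ℤ) * (1 - X)) * q ^ (1 - (X : ℤ)) := by
      rw [← zpow_add₀ hq]
      congr 1
      push_cast
      ring
    have e3 : q ^ ((m : ℤ) + l) * (br q 1 * qn q ((X : ℤ) + m - 1 + l)) =
        q ^ (1 - (X : ℤ)) * (q ^ (2 * ((X : ℤ) + m - 1)) * q ^ (2 * l) - 1) := by
      rw [show br q 1 * qn q ((X : ℤ) + m - 1 + l) = br q ((X : ℤ) + m - 1 + l) by
        unfold qn; field_simp]
      unfold br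
      rw [← zpow_natCast q (2 * l), ← zpow_add₀ hq, mul_sub, mul_sub, ← zpow_add₀ hq,
        ← zpow_add₀ hq, ← zpow_add₀ hq, mul_one]
      congr 2
      · push_cast
        ring
      · ring
    rw [e1, e2, pow_succ]
    linear_combination (q ^ ((m : ℤ) + l) * (br q 1 * qn q ((X : ℤ) + m - 1 + l))) * ih +
      (q ^ ((l : ℤ) * (1 - X)) *
      ∏ i ∈ Finset.range l, (q ^ (2 * ((X : ℤ) + m - 1)) * q ^ (2 * i) - 1)) * e3

private theorem Tb12_choose (k l : ℕ) :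
    (k + l).choose 2 = k.choose 2 + l.choose 2 + k * l := by
  induction l with
  | zero => simp
  | succ l ih =>
    rw [← add_assoc, Nat.choose_succ_succ' (k + l) 1, Nat.choose_succ_succ' l 1, ih,
      Nat.choose_one_right, Nat.choose_one_right]
    ring

private theorem Tb12_term (q : ℂ) (hq : q ≠ 0) (h1 : br q 1 ≠ 0) (n k X l : ℕ) (hl : l ≤ X)
    (hf : ∀ i ≤ k + X, qf q i ≠ 0) :
    qbin (q ^ 2) (k + l) k * bb q n (k + l) (k + X) = bb q n k (k + X) *
      (qb q X l * q ^ ((l : ℤ) * (1 - X)) *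
        ∏ i ∈ Finset.range l, (q ^ (2 * ((X : ℤ) + (n + 2 * k : ℕ) - 1)) * q ^ (2 * i) - 1)) := by
  have hb := Tb12_prod_br q hq h1 X (n + 2 * k) l
  have hp := Tb12_prod_fac q X l hl
  have hfac := qb_fac q hq X l hl
  have n1 := hf k (by omega)
  have n2 := hf l (by omega)
  have n3 := hf (k + l) (by omega)
  have n4 := hf (X - l) (by omega)
  have hqb : (∏ i ∈ Finset.range l, qn q ((X : ℤ) - i)) = qb q X l * qf q l := by
    apply mul_right_cancel₀ n4
    rw [hp, ← hfac]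
    ring
  rw [qbin_qb q hq h1 (k + l) k (by omega) (fun i hi => hf i (by omega)), Nat.add_sub_cancel_left]
  unfold bb bet
  rw [Tb12_om_add, hqb]
  have e1 : q ^ (k * l) * q ^ ((n : ℤ) * ((k + l : ℕ) : ℤ) + ((k + l).choose 2 : ℕ)) =
      q ^ ((n : ℤ) * k + (k.choose 2 : ℕ)) *
        q ^ (((n + 2 * k : ℕ) : ℤ) * l + (l.choose 2 : ℕ)) := by
    rw [← zpow_natCast q (k * l), ← zpow_add₀ hq, ← zpow_add₀ hq]
    congr 1
    rw [Tb12_choose]
    push_cast
    ring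
  have e2 : (X : ℤ) + (n + 2 * k) - 1 = (X : ℤ) + (n + 2 * k : ℕ) - 1 := by push_cast; ring
  rw [mul_assoc (qb q X l), ← hb, pow_add, e2]
  obtain ⟨P, hP⟩ : ∃ P, P = ∏ i ∈ Finset.range l, qn q ((X : ℤ) + (n + 2 * k : ℕ) - 1 + i) :=
    ⟨_, rfl⟩
  rw [← hP]
  rw [← hP] at hb
  obtain ⟨a1, ha1⟩ : ∃ a, a = q ^ (k * l) := ⟨_, rfl⟩
  obtain ⟨a2, ha2⟩ : ∃ a, a = q ^ ((n : ℤ) * ((k + l : ℕ) : ℤ) + ((k + l).choose 2 : ℕ)) :=
    ⟨_, rfl⟩
  obtain ⟨a3, ha3⟩ : ∃ a, a = q ^ ((n : ℤ) * k + (k.choose 2 : ℕ)) := ⟨_, rfl⟩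
  obtain ⟨a4, ha4⟩ : ∃ a, a = q ^ (((n + 2 * k : ℕ) : ℤ) * l + (l.choose 2 : ℕ)) := ⟨_, rfl⟩
  rw [← ha1, ← ha2, ← ha3, ← ha4] at e1
  rw [← ha1, ← ha2, ← ha3, ← ha4]
  obtain ⟨f, hf'⟩ : ∃ f, f = qf q (k + l) := ⟨_, rfl⟩
  rw [← hf']
  rw [← hf'] at n3
  clear hb hP ha1 ha2 ha3 ha4 hf' hp hfac hqb
  field_simp
  linear_combination (om q n k (k + X) * P * qb q X l) * e1

theorem tw_bb (q : ℂ) (n N : ℕ) (hg : Gen q n N) (hn : 1 ≤ n) (k : Fin (N + 1)) (X : ℕ)
    (hX : X ≤ N) :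
    tt q n X * bb q n k X = ∑ j : Fin (N + 1), Bmat N (q ^ n) q j k * bb q n j X := by
  have hq := hg.1
  have h1 := hg.br_one hn
  have hf : ∀ i ≤ X, qf q i ≠ 0 := fun i hi => hg.qf_ne hn (by omega)
  have hf1 : ∀ i ≤ X + 1, qf q i ≠ 0 := fun i hi => hg.qf_ne hn (by omega)
  have e0 : ∑ j : Fin (N + 1), Bmat N (q ^ n) q j k * bb q n j X =
      ∑ j ∈ Finset.range (N + 1), qbin (q ^ 2) j k * (((q ^ n) ^ 2) ^ (k : ℕ) *
        (q ^ 2) ^ ((k : ℕ) * ((k : ℕ) - 1))) * bb q n j X :=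
    Fin.sum_univ_eq_sum_range (fun j => qbin (q ^ 2) j k * (((q ^ n) ^ 2) ^ (k : ℕ) *
        (q ^ 2) ^ ((k : ℕ) * ((k : ℕ) - 1))) * bb q n j X) (N + 1)
  rw [e0]
  rcases Nat.lt_or_ge X k with hXk | hkX
  · rw [bb_lt q n k X hXk, mul_zero]
    symm
    refine Finset.sum_eq_zero fun j hj => ?_
    rcases Nat.lt_or_ge j k with hjk | hjk
    · rw [Tb12_qbin_lt _ _ _ hjk, zero_mul, zero_mul]
    · rw [bb_lt q n j X (by omega), mul_zero]
  · obtain ⟨Y, hY⟩ : ∃ Y, X = k + Y := ⟨X - k, by omega⟩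
    have e1 : ∑ j ∈ Finset.range (N + 1), qbin (q ^ 2) j k * (((q ^ n) ^ 2) ^ (k : ℕ) *
        (q ^ 2) ^ ((k : ℕ) * ((k : ℕ) - 1))) * bb q n j X =
        ∑ j ∈ Finset.Ico (k : ℕ) (X + 1), qbin (q ^ 2) j k * (((q ^ n) ^ 2) ^ (k : ℕ) *
        (q ^ 2) ^ ((k : ℕ) * ((k : ℕ) - 1))) * bb q n j X := by
      symm
      refine Finset.sum_subset ?_ ?_
      · intro j hj
        rw [Finset.mem_Ico] at hj
        rw [Finset.mem_range]
        omega
      · intro j _ hj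
        rw [Finset.mem_Ico] at hj
        rcases Nat.lt_or_ge j k with hjk | hjk
        · rw [Tb12_qbin_lt _ _ _ hjk, zero_mul, zero_mul]
        · rw [bb_lt q n j X (by omega), mul_zero]
    rw [e1, Finset.sum_Ico_eq_sum_range, show X + 1 - k = Y + 1 by omega]
    have e2 : ∀ l ∈ Finset.range (Y + 1), qbin (q ^ 2) (k + l) k * (((q ^ n) ^ 2) ^ (k : ℕ) *
        (q ^ 2) ^ ((k : ℕ) * ((k : ℕ) - 1))) * bb q n (k + l) X =
        ((((q ^ n) ^ 2) ^ (k : ℕ) * (q ^ 2) ^ ((k : ℕ) * ((k : ℕ) - 1))) * bb q n k X) *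
        (qb q Y l * q ^ ((l : ℤ) * (1 - Y)) *
        ∏ i ∈ Finset.range l, (q ^ (2 * ((Y : ℤ) + (n + 2 * k : ℕ) - 1)) * q ^ (2 * i) - 1)) := by
      intro l hl
      rw [Finset.mem_range] at hl
      have ht := Tb12_term q hq h1 n k Y l (by omega) (fun i hi => hf i (by omega))
      rw [← hY] at ht
      rw [mul_right_comm, ht]
      ring
    rw [Finset.sum_congr rfl e2, ← Finset.mul_sum,
      G_sum q (q ^ (2 * ((Y : ℤ) + (n + 2 * k : ℕ) - 1))) hq Y h1 (fun j hj => hf1 j (by omega))]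
    have e3 : tt q n X = (((q ^ n) ^ 2) ^ (k : ℕ) * (q ^ 2) ^ ((k : ℕ) * ((k : ℕ) - 1))) *
        (q ^ (2 * ((Y : ℤ) + (n + 2 * k : ℕ) - 1))) ^ Y := by
      unfold tt
      rw [← pow_mul, ← pow_mul, ← pow_mul, ← pow_add, ← zpow_natCast q, ← zpow_natCast _ Y,
        ← zpow_mul, ← zpow_add₀ hq, hY]
      congr 1
      rcases Nat.eq_zero_or_pos (k : ℕ) with hk | hk
      · rw [hk]
        push_cast
        ring
      · obtain ⟨m, hm⟩ : ∃ m, (k : ℕ) = m + 1 := ⟨k - 1, by omega⟩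
        rw [hm, Nat.add_sub_cancel]
        push_cast
        ring
    rw [e3]
    ring

end Pool.Agent.H63.VC12
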