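import Pool.Agent.H63.VC12.Gram12
import Pool.Agent.H63.VC12.Tb12
import Pool.Agent.H63.VC4.Bpow

/-! # The full twist in the second basis -/

namespace Pool.Agent.H63.VC12

open Pool.Agent.H63.VC7 Pool.Agent.H63.VC8 Pool.Agent.H63.VC11 Pool.Agent.H63.VC4

private theorem Tc12_cb (q : ℂ) (a : ℤ) : VC.cb (q ^ a) = br q a := by
  unfold VC.cb br
  rw [zpow_neg]

private theorem Tc12_facC_ne (q : ℂ) (n N i : ℕ) (hg : Gen q n N) (hn : 2 ≤ n) (hi : i < N) :
    facC N (q ^ n) q i ≠ 0 := by
  have hq : q ≠ 0 := hg.1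
  unfold facC
  have e1 : (q ^ n : ℂ) * q ^ ((N : ℤ) + i) = q ^ ((n : ℤ) + ((N : ℤ) + i)) := by
    rw [zpow_add₀ hq (n : ℤ), zpow_natCast]
  have e2 : (q ^ n : ℂ) * q ^ ((i : ℤ) - 1) = q ^ ((n : ℤ) + ((i : ℤ) - 1)) := by
    rw [zpow_add₀ hq (n : ℤ), zpow_natCast]
  rw [e1, e2, Tc12_cb, Tc12_cb, Tc12_cb, Tc12_cb]
  refine neg_ne_zero.mpr (mul_ne_zero (mul_ne_zero (pow_ne_zero _ (pow_ne_zero _ hq))
    (pow_ne_zero _ (pow_ne_zero _ hq))) (mul_ne_zero (div_ne_zero ?_ ?_) (mul_ne_zero ?_ ?_)))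
  · exact hg.br_ne (by omega) (by omega)
  · exact hg.br_ne (by omega) (by omega)
  · exact hg.br_ne (by omega) (by omega)
  · exact hg.br_ne (by omega) (by omega)

theorem Pk_ne (q : ℂ) (n N k : ℕ) (hg : Gen q n N) (hn : 2 ≤ n) (hk : k ≤ N) :
    Pk q n N k ≠ 0 := by
  unfold Pk
  rw [Finset.prod_ne_zero_iff]
  intro i hi
  have := Finset.mem_range.1 hi
  exact Tc12_facC_ne q n N i hg hn (by omega)

private theorem Tc12_bb_self (q : ℂ) (n N k : ℕ) (hg : Gen q n N) (hn : 2 ≤ n) (hk : k ≤ N) :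
    bb q n k k ≠ 0 := by
  have hq : q ≠ 0 := hg.1
  unfold bb bet om
  refine mul_ne_zero (div_ne_zero (mul_ne_zero (zpow_ne_zero _ hq)
    (pow_ne_zero _ (hg.br_one (by omega)))) (hg.qf_ne (by omega) (by omega))) ?_
  rw [Finset.prod_ne_zero_iff]
  intro i hi
  have := Finset.mem_range.1 hi
  exact mul_ne_zero (hg.qn_ne (by omega) (by omega) (by omega))
    (hg.qn_ne (by omega) (by omega) (by omega))

/-- A function which is orthogonal to all `bb q n k` is `0`. -/
theorem bb_nondeg (q : ℂ) (n N : ℕ) (hg : Gen q n N) (hn : 2 ≤ n) (f : ℕ → ℂ)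
    (h : ∀ k ≤ N, ∑ X ∈ Finset.range (N + 1), dimA n q X * (f X * bb q n k X) = 0) :
    ∀ X ≤ N, f X = 0 := by
  have key : ∀ m : ℕ, m ≤ N → f (N - m) = 0 := by
    intro m
    induction m using Nat.strong_induction_on with
    | _ m ih =>
      intro hm
      have h1 := h (N - m) (by omega)
      rw [Finset.sum_eq_single (N - m)] at h1
      · rcases mul_eq_zero.1 h1 with h2 | h2
        · exact absurd h2 (dimA_ne q n N (N - m) hg hn (by omega))
        · rcases mul_eq_zero.1 h2 with h3 | h3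
          · exact h3
          · exact absurd h3 (Tc12_bb_self q n N (N - m) hg hn (by omega))
      · intro X hX hne
        have hX' := Finset.mem_range.1 hX
        rcases lt_or_gt_of_ne hne with h2 | h2
        · rw [bb_lt q n _ X h2, mul_zero, mul_zero]
        · have h3 := ih (N - X) (by omega) (by omega)
          rw [show N - (N - X) = X by omega] at h3
          rw [h3, zero_mul, mul_zero]
      · intro hne
        exact absurd (Finset.mem_range.2 (by omega)) hne
  intro X hX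
  have := key (N - X) (by omega)
  rwa [show N - (N - X) = X by omega] at this

private theorem Tc12_sum (q : ℂ) (n N : ℕ) {ι : Type*} [Fintype ι] (c : ι → ℂ) (F : ι → ℕ → ℂ)
    (g : ℕ → ℂ) :
    ∑ X ∈ Finset.range (N + 1), dimA n q X * ((∑ j, c j * F j X) * g X) =
      ∑ j, c j * ∑ X ∈ Finset.range (N + 1), dimA n q X * (F j X * g X) := by
  simp only [Finset.sum_mul, Finset.mul_sum]
  rw [Finset.sum_comm]
  refine Finset.sum_congr rfl fun j _ => Finset.sum_congr rfl fun X _ => ?_
  ring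

theorem tw_cc (q : ℂ) (n N : ℕ) (hg : Gen q n N) (hn : 2 ≤ n) (k : Fin (N + 1)) (X : ℕ)
    (hX : X ≤ N) :
    tt q n X * cc q n N k X = ∑ j : Fin (N + 1), Cmat N (q ^ n) q j k * cc q n N j X := by
  have hkN : (k : ℕ) ≤ N := by have := k.2; omega
  suffices hs : ∀ X ≤ N, (fun X => tt q n X * cc q n N k X -
      ∑ j : Fin (N + 1), Cmat N (q ^ n) q j k * cc q n N j X) X = 0 from sub_eq_zero.1 (hs X hX)
  apply bb_nondeg q n N hg hn
  intro i hi
  obtain ⟨i', rfl⟩ : ∃ i' : Fin (N + 1), (i' : ℕ) = i := ⟨⟨i, by omega⟩, rfl⟩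
  have h1 : ∑ X ∈ Finset.range (N + 1), dimA n q X * (tt q n X * cc q n N k X * bb q n i' X) =
      Bmat N (q ^ n) q k i' * (dimS n N q * Pk q n N k) := by
    have e1 : ∀ X ∈ Finset.range (N + 1), dimA n q X * (tt q n X * cc q n N k X * bb q n i' X) =
        dimA n q X * ((∑ j : Fin (N + 1), Bmat N (q ^ n) q j i' * bb q n j X) *
          cc q n N k X) := by
      intro X hX
      have hX' := Finset.mem_range.1 hX
      rw [← tw_bb q n N hg (by omega) i' X (by omega)]
      ring
    rw [Finset.sum_congr rfl e1, Tc12_sum, Finset.sum_eq_single k]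
    · congr 1
      have h2 := gram q n N hg hn k k hkN hkN
      rw [if_pos rfl] at h2
      rw [← h2]
      refine Finset.sum_congr rfl fun X _ => ?_
      ring
    · intro j _ hj
      have h2 := gram q n N hg hn k j hkN (by have := j.2; omega)
      rw [if_neg (fun h => hj (Fin.ext h.symm))] at h2
      have h3 : ∑ X ∈ Finset.range (N + 1), dimA n q X * (bb q n j X * cc q n N k X) = 0 := by
        rw [← h2]
        refine Finset.sum_congr rfl fun X _ => ?_
        ring
      rw [h3, mul_zero]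
    · intro hne
      exact absurd (Finset.mem_univ _) hne
  have h2 : ∑ X ∈ Finset.range (N + 1), dimA n q X *
      ((∑ j : Fin (N + 1), Cmat N (q ^ n) q j k * cc q n N j X) * bb q n i' X) =
      Cmat N (q ^ n) q i' k * (dimS n N q * Pk q n N i') := by
    rw [Tc12_sum q n N (fun j => Cmat N (q ^ n) q j k) (fun j X => cc q n N j X)
      (fun X => bb q n i' X), Finset.sum_eq_single i']
    · congr 1
      have h3 := gram q n N hg hn i' i' hi hi
      rwa [if_pos rfl] at h3
    · intro j _ hj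
      have h3 := gram q n N hg hn j i' (by have := j.2; omega) hi
      rw [if_neg (fun h => hj (Fin.ext h))] at h3
      rw [h3, mul_zero]
    · intro hne
      exact absurd (Finset.mem_univ _) hne
  have h3 : ∑ X ∈ Finset.range (N + 1), dimA n q X * ((tt q n X * cc q n N k X -
      ∑ j : Fin (N + 1), Cmat N (q ^ n) q j k * cc q n N j X) * bb q n i' X) =
      Bmat N (q ^ n) q k i' * (dimS n N q * Pk q n N k) -
        Cmat N (q ^ n) q i' k * (dimS n N q * Pk q n N i') := by
    rw [← h1, ← h2, ← Finset.sum_sub_distrib]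
    refine Finset.sum_congr rfl fun X _ => ?_
    ring
  show ∑ X ∈ Finset.range (N + 1), dimA n q X * ((tt q n X * cc q n N k X -
      ∑ j : Fin (N + 1), Cmat N (q ^ n) q j k * cc q n N j X) * bb q n i' X) = 0
  rw [h3]
  have hC : Cmat N (q ^ n) q i' k =
      (∏ i ∈ Finset.Ico (i' : ℕ) k, facC N (q ^ n) q i) * Bmat N (q ^ n) q k i' := rfl
  rw [hC]
  rcases le_or_gt (i' : ℕ) (k : ℕ) with hle | hlt
  · have hP : Pk q n N k = Pk q n N i' * ∏ i ∈ Finset.Ico (i' : ℕ) k, facC N (q ^ n) q i := by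
      unfold Pk
      rw [Finset.prod_range_mul_prod_Ico _ hle]
    rw [hP]
    ring
  · have h0 : Bmat N (q ^ n) q k i' = 0 := Bmat_low N _ _ k i' hlt
    rw [h0]
    ring

end Pool.Agent.H63.VC12
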